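import Pool.Agent.X275.GB.DV

/-!
# Correlations of the divisor functions with a power saving, for almost all shifts near bilinear values at pairs of integers with missing digits

The values considered are `ϑ x y + g(x) + h(y)` with ARBITRARY real functions `g`, `h` and a real number `ϑ` of a suitable
size; `x` and `y` run through integers with missing digits (in two bases; the sets of allowed digits are arbitrary with at
least TWO elements), and `(x, y)` through an ARBITRARY set `S` of at least `1 / L` of all such pairs. For instance: the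
integers near the products `x y` of two integers with the decimal digits `0` and `1` only.
For almost all elements `n` of `S` (but a proportion of `N ^ (-θ)`), ALL nonzero shifts `h` within `N ^ θ` of the value
satisfy the expected asymptotic formula for `D_r(x; h)` with a power saving, for ALL `x ≤ N`; here `L = N ^ θ`.

Definitions used from the starting file `Pool.Agent.Results.MP_122e00_nt.PowerSavingShifts`: the divisor functions `d`, the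
sums `D`, the Ramanujan sums `ram`, the densities `κ`, the singular series `𝔖`, `Density`, `G`, `main`, `Asymp`. The passage
from the additive energy of a family of shifts to the correlations is the theorem of that file; the minimal real additive
energy of the values considered here is from `Pool.Agent.X31.M1` - `M3` (in this run), and is used in
`Pool.Agent.X275.GB.PS`.
-/

set_option autoImplicit false

namespace Pool.Agent.Results.MP_122e00_nt.BilinearMissingDigits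

open Finset Polynomial Pool.Agent.Results.MP_122e00_nt.PowerSavingShifts

/-- the integers `0 ≤ n < b ^ M` whose digit at `b ^ j` in base `b` is in `𝒟 j`, for all `j < M` -/
def Digits (b : ℕ) (𝒟 : ℕ → Finset ℕ) (M : ℕ) : Finset ℕ :=
  (range (b ^ M)).filter (fun n => ∀ j < M, n / b ^ j % b ∈ 𝒟 j)

/-- The sets `𝒟₁ j`, `𝒟₂ j` of allowed digits in the bases `b₁`, `b₂` have at least two elements; the numbers `M₁`, `M₂` of
digits differ at most by the factor `l`; `|ϑ| ≤ L` and `|ϑ| b₁ ^ M₁ b₂ ^ M₂ ≥ N / L`; `S` is a subset of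
the product of the two sets of integers with missing digits with at least `1 / L` of its elements, and
`|ϑ x y + g(x) + h(y)| ≤ N` on `S`. -/
def Fam (b₁ b₂ l : ℕ) (L : ℝ) (N M₁ M₂ : ℕ) (𝒟₁ 𝒟₂ : ℕ → Finset ℕ) (ϑ : ℝ) (g h : ℕ → ℝ) (S : Finset (ℕ × ℕ)) : Prop :=
  (∀ j, 𝒟₁ j ⊆ range b₁ ∧ 2 ≤ (𝒟₁ j).card) ∧ (∀ j, 𝒟₂ j ⊆ range b₂ ∧ 2 ≤ (𝒟₂ j).card) ∧
  M₁ ≤ l * M₂ ∧ M₂ ≤ l * M₁ ∧ |ϑ| ≤ L ∧
  (N : ℝ) / L ≤ |ϑ| * ((b₁ : ℝ) ^ M₁ * (b₂ : ℝ) ^ M₂) ∧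
  S ⊆ Digits b₁ 𝒟₁ M₁ ×ˢ Digits b₂ 𝒟₂ M₂ ∧
  ((Digits b₁ 𝒟₁ M₁).card * (Digits b₂ 𝒟₂ M₂).card : ℝ) / L ≤ S.card ∧
  ∀ p ∈ S, |ϑ * ((p.1 : ℝ) * p.2) + g p.1 + h p.2| ≤ N

lemma dat_of {b₁ b₂ l : ℕ} {L : ℝ} {N M₁ M₂ : ℕ} {𝒟₁ 𝒟₂ : ℕ → Finset ℕ} {ϑ : ℝ} {g h : ℕ → ℝ} {S : Finset (ℕ × ℕ)}
    (H : Fam b₁ b₂ l L N M₁ M₂ 𝒟₁ 𝒟₂ ϑ g h S) :
    Pool.Agent.X275.GB.PS.FBil b₁ b₂ l L N M₁ M₂ 𝒟₁ 𝒟₂ ϑ g h S := H

/-- Let `r ≥ 2`. There are polynomials `P_q` (`q ≥ 1`) and `T_h` (`h ≠ 0`) with the following properties.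

(0) `P_q` is the density of `d_r(n) e(b n / q)`, `(b, q) = 1`; it has degree `r - 1`, leading coefficient
`κ_{r - 1}(q) / (r - 1)!`, and coefficients `O(q ^ (ε - 1))`. For `h ≠ 0` the series `G_h(u, v) = ∑ c_q(h) P_q(u) P_q(v)`
converges absolutely; `T_h(u) + T_h'(u) = G_h(u, u)`; `T_h` has degree `2 r - 2` and leading coefficient
`𝔖_r(h) / ((r - 1)!) ^ 2`.

(1) Let `b₁, b₂ ≥ 2`, `l ≥ 1`; the functions `g` and `h₁` are arbitrary. There is `θ > 0` such that for every `0 < η ≤ θ` and every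
large `N` the following holds for ALL data with `Fam b₁ b₂ l (N ^ θ) N M₁ M₂ 𝒟₁ 𝒟₂ ϑ g h₁ S`: for all but at most
`N ^ (-θ) #S` of the elements `n` of `S`, ALL integers `h ≠ 0` with `|h - (ϑ x y + g(x) + h₁(y))| ≤ N ^ θ` satisfy, for ALL `x ≤ N`:
`D_r(x; h) = ∑ G_h(log n, log(n + h)) + O(N ^ (1 - θ))` (the sum over `n ≤ x` with `n + h ≥ 1`) and, if
`|h| ≤ N ^ (1 - η)`, `D_r(x; h) = x T_h(log x) + O(N ^ (1 - η / 8))`, with implied constants `1`. -/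
theorem result (r : ℕ) (hr : 2 ≤ r) : ∃ (P : ℕ → ℝ[X]) (T : ℤ → ℝ[X]),
    (Density r P ∧ (∀ q, 1 ≤ q → (P q).natDegree = r - 1 ∧ (P q).leadingCoeff = κ (r - 1) q / ((r - 1).factorial : ℝ)) ∧
      ∀ ε : ℝ, 0 < ε → ∃ C : ℝ, ∀ q i : ℕ, 1 ≤ q → |(P q).coeff i| ≤ C * (q : ℝ) ^ (ε - 1)) ∧
    (∀ h : ℤ, h ≠ 0 → (∀ u v : ℝ, Summable (fun q : ℕ => (ram (q + 1) h : ℝ) * ((P (q + 1)).eval u * (P (q + 1)).eval v))) ∧
      (∀ u : ℝ, (T h).eval u + (derivative (T h)).eval u = G P h u u) ∧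
      (T h).natDegree = 2 * r - 2 ∧ (T h).leadingCoeff = 𝔖 r h / ((r - 1).factorial : ℝ) ^ 2) ∧
    ∀ b₁ b₂ l : ℕ, 2 ≤ b₁ → 2 ≤ b₂ → 1 ≤ l →
      ∃ θ : ℝ, 0 < θ ∧ ∀ η : ℝ, 0 < η → η ≤ θ → ∃ N₀ : ℕ, ∀ N : ℕ, N₀ ≤ N →
      ∀ (M₁ M₂ : ℕ) (𝒟₁ 𝒟₂ : ℕ → Finset ℕ) (ϑ : ℝ) (g h₁ : ℕ → ℝ) (S : Finset (ℕ × ℕ)), Fam b₁ b₂ l ((N : ℝ) ^ θ) N M₁ M₂ 𝒟₁ 𝒟₂ ϑ g h₁ S →
      ∃ E : Finset (ℕ × ℕ), (E.card : ℝ) ≤ (N : ℝ) ^ (-θ) * S.card ∧ ∀ n ∈ S, n ∉ E →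
        ∀ h : ℤ, h ≠ 0 → |(h : ℝ) - (ϑ * ((n.1 : ℝ) * n.2) + g n.1 + h₁ n.2)| ≤ (N : ℝ) ^ θ → Asymp r N P T θ η h := by
  obtain ⟨P, T, hA, hB, h1, _⟩ := Pool.Agent.Results.MP_122e00_nt.PowerSavingShifts.result r hr
  refine ⟨P, T, hA, hB, fun b₁ b₂ l hb₁ hb₂ hl => ?_⟩
  obtain ⟨θ, hθ, h2⟩ := Pool.Agent.X275.GB.DV.transfer (Pool.Agent.X275.GB.PS.LSch_bil hb₁ hb₂ l hl).psch r P T h1
  refine ⟨θ, hθ, fun η hη hηθ => ?_⟩
  obtain ⟨N₀, h3⟩ := h2 η hη hηθ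
  refine ⟨N₀, fun N hN M₁ M₂ 𝒟₁ 𝒟₂ ϑ g h₁ S hfam => ?_⟩
  exact h3 N hN S _ ⟨M₁, M₂, 𝒟₁, 𝒟₂, ϑ, g, h₁, dat_of hfam, fun _ => rfl⟩

end Pool.Agent.Results.MP_122e00_nt.BilinearMissingDigits
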