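import Pool.Agent.X275.GB.DV

/-!
# Correlations of the divisor functions with a power saving, for almost all shifts near the values of polynomials at integers with missing digits

`f` is an arbitrary real polynomial of degree `d ≥ 2` (only the size of the leading coefficient is restricted), `C` is the
set of the integers with `M` digits in base `b` whose digit at `b ^ j` is in `𝒟 j`, where the sets `𝒟 j` of allowed digits
are arbitrary with at least TWO elements (for instance: the integers with the decimal digits `0` and `1` only); the values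
considered are `f(n)`, where `n` runs through an ARBITRARY subset `S` of `C` with at least `#C / L` elements. The starting
files treat integral quadratic polynomials and the full sets `C`.
For almost all elements `n` of `S` (but a proportion of `N ^ (-θ)`), ALL nonzero shifts `h` within `N ^ θ` of the value
satisfy the expected asymptotic formula for `D_r(x; h)` with a power saving, for ALL `x ≤ N`; here `L = N ^ θ`.

Definitions used from the starting file `Pool.Agent.Results.MP_122e00_nt.PowerSavingShifts`: the divisor functions `d`, the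
sums `D`, the Ramanujan sums `ram`, the densities `κ`, the singular series `𝔖`, `Density`, `G`, `main`, `Asymp`. The passage
from the additive energy of a family of shifts to the correlations is the theorem of that file; the minimal real additive
energy of the values considered here is from `Pool.Agent.X31.K1` - `K10` (in this run), and is used in
`Pool.Agent.X275.GB.PS`.
-/

set_option autoImplicit false

namespace Pool.Agent.Results.MP_122e00_nt.MissingDigits

open Finset Polynomial Pool.Agent.Results.MP_122e00_nt.PowerSavingShifts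

/-- the integers `0 ≤ n < b ^ M` whose digit at `b ^ j` in base `b` is in `𝒟 j`, for all `j < M` -/
def Digits (b : ℕ) (𝒟 : ℕ → Finset ℕ) (M : ℕ) : Finset ℕ :=
  (range (b ^ M)).filter (fun n => ∀ j < M, n / b ^ j % b ∈ 𝒟 j)

/-- `S` is a subset with at least `#(Digits b 𝒟 M) / L` elements of the set `Digits b 𝒟 M`, where all sets `𝒟 j`
of allowed digits have at least two elements; `f` is a real polynomial of degree at most `d`, the coefficient of `x ^ d`
is at most `L` and at least `N / (b ^ (d M) L)` in absolute value, and `|f| ≤ N` on `S`. -/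
def Fam (b d : ℕ) (L : ℝ) (N M : ℕ) (𝒟 : ℕ → Finset ℕ) (f : ℝ[X]) (S : Finset ℕ) : Prop :=
  (∀ j, 𝒟 j ⊆ range b ∧ 2 ≤ (𝒟 j).card) ∧
  f.natDegree ≤ d ∧ |f.coeff d| ≤ L ∧ (N : ℝ) / L ≤ |f.coeff d| * (b : ℝ) ^ (d * M) ∧
  S ⊆ Digits b 𝒟 M ∧ ((Digits b 𝒟 M).card : ℝ) / L ≤ S.card ∧ ∀ n ∈ S, |f.eval (n : ℝ)| ≤ N

lemma dat_of {b d : ℕ} {L : ℝ} {N M : ℕ} {𝒟 : ℕ → Finset ℕ} {f : ℝ[X]} {S : Finset ℕ} (H : Fam b d L N M 𝒟 f S) :
    Pool.Agent.X275.GB.PS.FDg b d L N M 𝒟 f S := H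

/-- Let `r ≥ 2`. There are polynomials `P_q` (`q ≥ 1`) and `T_h` (`h ≠ 0`) with the following properties.

(0) `P_q` is the density of `d_r(n) e(b n / q)`, `(b, q) = 1`; it has degree `r - 1`, leading coefficient
`κ_{r - 1}(q) / (r - 1)!`, and coefficients `O(q ^ (ε - 1))`. For `h ≠ 0` the series `G_h(u, v) = ∑ c_q(h) P_q(u) P_q(v)`
converges absolutely; `T_h(u) + T_h'(u) = G_h(u, u)`; `T_h` has degree `2 r - 2` and leading coefficient
`𝔖_r(h) / ((r - 1)!) ^ 2`.

(1) Let `b ≥ 2`, `d ≥ 2`. There is `θ > 0` such that for every `0 < η ≤ θ` and every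
large `N` the following holds for ALL data with `Fam b d (N ^ θ) N M 𝒟 f S`: for all but at most
`N ^ (-θ) #S` of the elements `n` of `S`, ALL integers `h ≠ 0` with `|h - (f(n))| ≤ N ^ θ` satisfy, for ALL `x ≤ N`:
`D_r(x; h) = ∑ G_h(log n, log(n + h)) + O(N ^ (1 - θ))` (the sum over `n ≤ x` with `n + h ≥ 1`) and, if
`|h| ≤ N ^ (1 - η)`, `D_r(x; h) = x T_h(log x) + O(N ^ (1 - η / 8))`, with implied constants `1`. -/
theorem result (r : ℕ) (hr : 2 ≤ r) : ∃ (P : ℕ → ℝ[X]) (T : ℤ → ℝ[X]),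
    (Density r P ∧ (∀ q, 1 ≤ q → (P q).natDegree = r - 1 ∧ (P q).leadingCoeff = κ (r - 1) q / ((r - 1).factorial : ℝ)) ∧
      ∀ ε : ℝ, 0 < ε → ∃ C : ℝ, ∀ q i : ℕ, 1 ≤ q → |(P q).coeff i| ≤ C * (q : ℝ) ^ (ε - 1)) ∧
    (∀ h : ℤ, h ≠ 0 → (∀ u v : ℝ, Summable (fun q : ℕ => (ram (q + 1) h : ℝ) * ((P (q + 1)).eval u * (P (q + 1)).eval v))) ∧
      (∀ u : ℝ, (T h).eval u + (derivative (T h)).eval u = G P h u u) ∧
      (T h).natDegree = 2 * r - 2 ∧ (T h).leadingCoeff = 𝔖 r h / ((r - 1).factorial : ℝ) ^ 2) ∧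
    ∀ b d : ℕ, 2 ≤ b → 2 ≤ d →
      ∃ θ : ℝ, 0 < θ ∧ ∀ η : ℝ, 0 < η → η ≤ θ → ∃ N₀ : ℕ, ∀ N : ℕ, N₀ ≤ N →
      ∀ (M : ℕ) (𝒟 : ℕ → Finset ℕ) (f : ℝ[X]) (S : Finset ℕ), Fam b d ((N : ℝ) ^ θ) N M 𝒟 f S →
      ∃ E : Finset (ℕ), (E.card : ℝ) ≤ (N : ℝ) ^ (-θ) * S.card ∧ ∀ n ∈ S, n ∉ E →
        ∀ h : ℤ, h ≠ 0 → |(h : ℝ) - f.eval (n : ℝ)| ≤ (N : ℝ) ^ θ → Asymp r N P T θ η h := by
  obtain ⟨P, T, hA, hB, h1, _⟩ := Pool.Agent.Results.MP_122e00_nt.PowerSavingShifts.result r hr
  refine ⟨P, T, hA, hB, fun b d hb hd => ?_⟩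
  obtain ⟨θ, hθ, h2⟩ := Pool.Agent.X275.GB.DV.transfer (Pool.Agent.X275.GB.PS.LSch_dg hb hd).psch r P T h1
  refine ⟨θ, hθ, fun η hη hηθ => ?_⟩
  obtain ⟨N₀, h3⟩ := h2 η hη hηθ
  refine ⟨N₀, fun N hN M 𝒟 f S hfam => ?_⟩
  exact h3 N hN S _ ⟨M, 𝒟, f, dat_of hfam, fun _ => rfl⟩

end Pool.Agent.Results.MP_122e00_nt.MissingDigits
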