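import Pool.Agent.X275.GB.DV

/-!
# Correlations of the divisor functions with a power saving, for almost all shifts near real powers of integers with missing digits

`f(t) = ∑ a_x t ^ x` is a finite real combination of real powers of `t` whose largest exponent `c > 0` is NOT an integer
(for instance `t ^ c` or `√t`), and the values considered are `k + ϑ f(n)`, where `n` runs through an ARBITRARY subset `S`
with at least `1 / L` of the elements of the set of the integers with `M` digits in base `b` whose digit at `b ^ j` is in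
`𝒟 j`; the sets `𝒟 j` of allowed digits are arbitrary with at least TWO elements.
For almost all elements `n` of `S` (but a proportion of `N ^ (-θ)`), ALL nonzero shifts `h` within `N ^ θ` of the value
satisfy the expected asymptotic formula for `D_r(x; h)` with a power saving, for ALL `x ≤ N`; here `L = N ^ θ`.

Definitions used from the starting file `Pool.Agent.Results.MP_122e00_nt.PowerSavingShifts`: the divisor functions `d`, the
sums `D`, the Ramanujan sums `ram`, the densities `κ`, the singular series `𝔖`, `Density`, `G`, `main`, `Asymp`. The passage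
from the additive energy of a family of shifts to the correlations is the theorem of that file; the minimal real additive
energy of the values considered here is from `Pool.Agent.X31.R1` - `R3` (in this run), and is used in
`Pool.Agent.X275.GB.PS`.
-/

set_option autoImplicit false

namespace Pool.Agent.Results.MP_122e00_nt.RealPowersMissingDigits

open Finset Polynomial Pool.Agent.Results.MP_122e00_nt.PowerSavingShifts

/-- the integers `0 ≤ n < b ^ M` whose digit at `b ^ j` in base `b` is in `𝒟 j`, for all `j < M` -/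
def Digits (b : ℕ) (𝒟 : ℕ → Finset ℕ) (M : ℕ) : Finset ℕ :=
  (range (b ^ M)).filter (fun n => ∀ j < M, n / b ^ j % b ∈ 𝒟 j)

/-- the generalised polynomial with the exponents `x ∈ F` and the coefficients `a x` -/
noncomputable def f (F : Finset ℝ) (a : ℝ → ℝ) (t : ℝ) : ℝ := ∑ x ∈ F, a x * t ^ x

/-- The sets `𝒟 j` of allowed digits have at least two elements; `|ϑ| ≤ L` and `|ϑ| b ^ (M c) ≥ N / L`; `S` is
a subset of the set of the integers with missing digits with at least `1 / L` of its elements, and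
`|k + ϑ f(n)| ≤ N` on `S`. -/
def Fam (b : ℕ) (F : Finset ℝ) (a : ℝ → ℝ) (c : ℝ) (L : ℝ) (N M : ℕ) (𝒟 : ℕ → Finset ℕ) (ϑ k : ℝ) (S : Finset ℕ) : Prop :=
  (∀ j, 𝒟 j ⊆ range b ∧ 2 ≤ (𝒟 j).card) ∧ |ϑ| ≤ L ∧ (N : ℝ) / L ≤ |ϑ| * ((b : ℝ) ^ M) ^ c ∧
  S ⊆ Digits b 𝒟 M ∧ ((Digits b 𝒟 M).card : ℝ) / L ≤ S.card ∧ ∀ n ∈ S, |k + ϑ * f F a n| ≤ N

lemma dat_of {b : ℕ} {F : Finset ℝ} {a : ℝ → ℝ} {c : ℝ} {L : ℝ} {N M : ℕ} {𝒟 : ℕ → Finset ℕ} {ϑ k : ℝ} {S : Finset ℕ}
    (H : Fam b F a c L N M 𝒟 ϑ k S) :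
    Pool.Agent.X275.GB.PS.FRp b c L N M 𝒟 ϑ k (fun n => Pool.Agent.X31.gp F a n) S := H

/-- Let `r ≥ 2`. There are polynomials `P_q` (`q ≥ 1`) and `T_h` (`h ≠ 0`) with the following properties.

(0) `P_q` is the density of `d_r(n) e(b n / q)`, `(b, q) = 1`; it has degree `r - 1`, leading coefficient
`κ_{r - 1}(q) / (r - 1)!`, and coefficients `O(q ^ (ε - 1))`. For `h ≠ 0` the series `G_h(u, v) = ∑ c_q(h) P_q(u) P_q(v)`
converges absolutely; `T_h(u) + T_h'(u) = G_h(u, u)`; `T_h` has degree `2 r - 2` and leading coefficient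
`𝔖_r(h) / ((r - 1)!) ^ 2`.

(1) Let `b ≥ 2`, let `F` be a finite set of real numbers whose maximum `c > 0` is not an integer, `a c ≠ 0`, and
`f(t) = ∑_{x ∈ F} a x * t ^ x`. There is `θ > 0` such that for every `0 < η ≤ θ` and every
large `N` the following holds for ALL data with `Fam b F a c (N ^ θ) N M 𝒟 ϑ k S`: for all but at most
`N ^ (-θ) #S` of the elements `n` of `S`, ALL integers `h ≠ 0` with `|h - (k + ϑ f(n))| ≤ N ^ θ` satisfy, for ALL `x ≤ N`:
`D_r(x; h) = ∑ G_h(log n, log(n + h)) + O(N ^ (1 - θ))` (the sum over `n ≤ x` with `n + h ≥ 1`) and, if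
`|h| ≤ N ^ (1 - η)`, `D_r(x; h) = x T_h(log x) + O(N ^ (1 - η / 8))`, with implied constants `1`. -/
theorem result (r : ℕ) (hr : 2 ≤ r) : ∃ (P : ℕ → ℝ[X]) (T : ℤ → ℝ[X]),
    (Density r P ∧ (∀ q, 1 ≤ q → (P q).natDegree = r - 1 ∧ (P q).leadingCoeff = κ (r - 1) q / ((r - 1).factorial : ℝ)) ∧
      ∀ ε : ℝ, 0 < ε → ∃ C : ℝ, ∀ q i : ℕ, 1 ≤ q → |(P q).coeff i| ≤ C * (q : ℝ) ^ (ε - 1)) ∧
    (∀ h : ℤ, h ≠ 0 → (∀ u v : ℝ, Summable (fun q : ℕ => (ram (q + 1) h : ℝ) * ((P (q + 1)).eval u * (P (q + 1)).eval v))) ∧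
      (∀ u : ℝ, (T h).eval u + (derivative (T h)).eval u = G P h u u) ∧
      (T h).natDegree = 2 * r - 2 ∧ (T h).leadingCoeff = 𝔖 r h / ((r - 1).factorial : ℝ) ^ 2) ∧
    ∀ (b : ℕ) (F : Finset ℝ) (a : ℝ → ℝ) (c : ℝ), 2 ≤ b → c ∈ F → (∀ x ∈ F, x ≤ c) → a c ≠ 0 → 0 < c → (∀ n : ℕ, c ≠ n) →
      ∃ θ : ℝ, 0 < θ ∧ ∀ η : ℝ, 0 < η → η ≤ θ → ∃ N₀ : ℕ, ∀ N : ℕ, N₀ ≤ N →
      ∀ (M : ℕ) (𝒟 : ℕ → Finset ℕ) (ϑ k : ℝ) (S : Finset ℕ), Fam b F a c ((N : ℝ) ^ θ) N M 𝒟 ϑ k S →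
      ∃ E : Finset (ℕ), (E.card : ℝ) ≤ (N : ℝ) ^ (-θ) * S.card ∧ ∀ n ∈ S, n ∉ E →
        ∀ h : ℤ, h ≠ 0 → |(h : ℝ) - (k + ϑ * f F a n)| ≤ (N : ℝ) ^ θ → Asymp r N P T θ η h := by
  obtain ⟨P, T, hA, hB, h1, _⟩ := Pool.Agent.Results.MP_122e00_nt.PowerSavingShifts.result r hr
  refine ⟨P, T, hA, hB, fun b F a c hb hcF hmax hac hc hcn => ?_⟩
  obtain ⟨θ, hθ, h2⟩ := Pool.Agent.X275.GB.DV.transfer (Pool.Agent.X275.GB.PS.LSch_rp hb F a c hcF hmax hac hc hcn).psch r P T h1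
  refine ⟨θ, hθ, fun η hη hηθ => ?_⟩
  obtain ⟨N₀, h3⟩ := h2 η hη hηθ
  refine ⟨N₀, fun N hN M 𝒟 ϑ k S hfam => ?_⟩
  exact h3 N hN S _ ⟨M, 𝒟, ϑ, k, dat_of hfam, fun _ => rfl⟩

end Pool.Agent.Results.MP_122e00_nt.RealPowersMissingDigits
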